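import Pool.Agent.Run7.h345.Sch.Fin
import Pool.Agent.N742.DR.EXI5
import Pool.Agent.N229.SC.A1
import Pool.Agent.N229.SC.A2
import Pool.Agent.N229.SC.A3
import Pool.Agent.N229.SC.AB
import Pool.Agent.N229.SC.B1
import Pool.Agent.N229.SC.B2
import Pool.Agent.N229.SC.B3
import Pool.Agent.N229.SC.SELF
import Pool.Agent.N229.SC.CTR
import Pool.Agent.N229.SC.LX
import Pool.Agent.N229.SC.FIX
import Pool.Agent.N229.SC.HG
import Pool.Agent.N229.SC.VG
import Pool.Agent.N229.SC.YG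
import Pool.Agent.N229.SC.RV
import Pool.Agent.N229.SC.GG
import Pool.Agent.N229.SC.SGN
import Pool.Agent.N229.SC.N1
import Pool.Agent.N229.SC.N2
import Pool.Agent.N229.SC.N3
import Pool.Agent.N229.SC.NUM
import Pool.Agent.N229.SC.EH
import Pool.Agent.N229.SC.EV
import Pool.Agent.N229.SC.FN3
import Pool.Agent.N229.SC.FN4
import Pool.Agent.N229.SC.PSM
import Pool.Agent.N229.SC.INJ
import Pool.Agent.Run7.h189.SC.Fn1
import Pool.Agent.Run7.h189.SC.Pde
import Pool.Agent.Run7.h298.SC.Top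
import Pool.Agent.Run7.h298.SC.Tr
import Pool.Agent.Run7.h367.SC.Fn2
import Pool.Agent.Run7.h367.SC.Wk1
import Pool.Agent.Run7.h606.SC.Nb
import Pool.Agent.Run7.h606.SC.Wk2
import Pool.Agent.Run7.h606.SC.Wk3
import Pool.Agent.Run7.h834.SC.Lip
import Pool.Agent.Run7.h989.SC.Fn5

/-!
# Disproof of Schiffer's conjecture (MP_83fd13_an, frozen S05252): the counterexample in `ℂ` (helper345)
-/

set_option autoImplicit false

namespace Pool.Agent.Run7.h345.Sch

open Pool.Agent.N229.SC Pool.Agent.N742.DR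

theorem final : FinalC := by
  have A1 := proof_A1
  have A2 := proof_A2 A1
  have A3 := proof_A3 A1 A2
  have AB := proof_AB
  have B1 := proof_B1 A1 A2 A3
  have B2 := proof_B2 A1 A2 A3 AB B1
  have B3 := proof_B3 A1 A2 A3 AB B1 B2
  have SELF := proof_SELF A1 A2 A3 AB B1 B2
  have CTR := proof_CTR A1 A2 A3 AB B1 B2 B3
  have LX := proof_LX A1 A2 A3 AB B1 B2
  have FIX := proof_FIX A1 A2 SELF CTR LX
  have HG := proof_HG A1 A2 A3 AB B1 B2
  have VG := proof_VG A1 A2 A3 AB B1 B2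
  have YG := proof_YG A1 A2 A3 AB B1 B2
  have RV := proof_RV A1 A2 A3 AB B1 B2
  have GG := proof_GG A1 A2 A3 AB B1 B2 RV
  have SGN := proof_SGN A1 A2 AB HG VG YG RV GG
  have NUM := proof_NUM proof_N1 proof_N2 proof_N3
  have EH := proof_EH A1 A2
  have EV := proof_EV A1 A2 A3
  have FN3 := proof_FN3 A1 A2 A3 AB B1 B2 EH
  have FN4 := proof_FN4 A1 A2 A3 AB B1 B2 EH EV
  have PSM := proof_PSM
  have INJ := proof_INJ
  have EXI5 := proof_EXI5 A1 A2 FIX HG SGN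
  exact finalC NUM (exi EXI5) (Run7.h189.SC.t_FN1 AB B1 EV EH) (_root_.Run7.h367.SC.t_FN2 A2 AB EH)
    FN3 FN4 (_root_.Run7.h989.SC.t_FN5 A2 AB B1 B2 EV) (Run7.h189.SC.t_PDE PSM)
    _root_.Run7.h298.SC.top (Run7.h834.SC.t_LIP INJ) Run7.h606.SC.nb
    (_root_.Run7.h367.SC.t_WK1 INJ) Run7.h606.SC.wk2 Run7.h606.SC.wk3

end Pool.Agent.Run7.h345.Sch
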