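import Pool.Agent.N742.DR.Stm

/-!
# Disproof of Schiffer's conjecture (MP_83fd13_an, frozen S05252): assembly (helper345)

From the parts of the project `N229/SC` to `FinalC`.
-/

set_option autoImplicit false

open Set Filter Topology MeasureTheory

namespace Pool.Agent.Run7.h345.Sch

open Pool.Agent.N229.SC Pool.Agent.N742.DR

/-- SC-EXI from DR-EXI5. -/
theorem exi (hEXI : S_EXI5) : S_EXI := by
  intro P hG
  obtain ⟨X, h, v, y, hX0, _, hX2, hsol, hO, hh⟩ := hEXI P hG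
  exact ⟨X, h, v, y, hX0, hX2, hsol, hO, hh⟩

/-- The solution of all equations. -/
theorem exists_full (hNUM : S_NUM) (hEXI : S_EXI) :
    ∃ (P : Par) (X : ℝ) (h v : W) (y : ℕ → A), Full P X h v y := by
  obtain ⟨P, hG, C, hC⟩ := hNUM
  obtain ⟨X, h, v, y, hX0, hX2, hsol, hO, hh⟩ := hEXI P hG
  exact ⟨P, X, h, v, y,
    { good := hG
      bd := ⟨C, hC⟩
      X_pos := hX0
      X_le := hX2
      sol := hsol
      eO := hO
      hX := hh }⟩

/-- The final statement in the plane, from its parts. -/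
theorem finalC (hNUM : S_NUM) (hEXI : S_EXI) (hFN1 : S_FN1) (hFN2 : S_FN2) (hFN3 : S_FN3)
    (hFN4 : S_FN4) (hFN5 : S_FN5) (hPDE : S_PDE) (hTOP : S_TOP) (hLIP : S_LIP) (hNB : S_NB)
    (hWK1 : S_WK1) (hWK2 : S_WK2) (hWK3 : S_WK3) : FinalC := by
  obtain ⟨P, X, h, v, y, hB⟩ := exists_full hNUM hEXI
  obtain ⟨hconf, hnd⟩ := hFN1 P X h v y hB
  obtain ⟨hQ1, hQ2⟩ := hFN2 P X h v y hB
  have hstr : Str P.ρ (rF P) (fF P h) (QF P X h v y) :=
    { conf := hconf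
      Q_diff := hQ1
      Q_bd := hQ2
      rel := hFN3 P X h v y hB
      bdry := hFN4 P X h v y hB
      ne := hFN5 P X h v y hB }
  obtain ⟨r', c, U, S, hr1, hr2, hcl⟩ := hPDE _ _ _ _ hstr
  obtain ⟨t1, t2, t3, t4, t5, t6⟩ := hTOP _ _ _ hconf
  refine ⟨Om (fF P h), t1, t2, t3, t4, t6, ?_, hNB _ _ _ hconf hnd, 1, c, uF (fF P h) U,
    GF (fF P h) S, one_pos, ?_⟩
  · intro p hp
    rw [t5] at hp
    obtain ⟨z, hz, rfl⟩ := hp
    exact hLIP _ _ _ hconf z (mem_sphere_zero_iff_norm.1 hz)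
  · obtain ⟨w1, w2, w3⟩ := hWK1 _ _ _ _ _ _ _ hconf hr1 hr2 hcl
    exact ⟨w1, w2, hWK2 _ _ _ _ _ _ _ hconf hr1 hr2 hcl, hWK3 _ _ _ _ _ _ _ hconf hr1 hr2 hcl, w3⟩

end Pool.Agent.Run7.h345.Sch
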